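import Pool.Agent.Q207.Cube

/-!
# Factors of a flow which separate two points and always have infinite entropy
-/

set_option autoImplicit false

namespace Pool.Agent.Results.MP_54b048_an.InfiniteEntropyFactors

/-- **Theorem.** There are a compact metrizable space `X`, a fixed-point free continuous flow `φ` of
`ℝ` on `X` and points `w ≠ w'` of `X` such that every flow factor map `π` from `(X, φ)` to a flow
`(Y, ψ)` on a compact metric space with `π w ≠ π w'` has infinite topological entropy:
the topological entropy of the time-one map `ψ 1` is `∞`.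

(`Flow ℝ X` is Mathlib's structure of continuous actions of `ℝ`; `Flow.IsSemiconjugacy π φ ψ` says
that `π` is a continuous surjection with `π (φ t x) = ψ t (π x)`; `Dynamics.coverEntropy T univ` is
the topological entropy of `T` (Bowen-Dinaburg), with values in the extended reals.) -/
theorem result.{u} : ∃ (X : Type) (_ : TopologicalSpace X) (_ : CompactSpace X)
    (_ : TopologicalSpace.MetrizableSpace X) (φ : Flow ℝ X) (w w' : X),
    (∀ x : X, ∃ t : ℝ, φ t x ≠ x) ∧ w ≠ w' ∧
    ∀ (Y : Type u) [MetricSpace Y] [CompactSpace Y] (ψ : Flow ℝ Y) (π : X → Y),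
      Flow.IsSemiconjugacy π φ ψ → π w ≠ π w' → Dynamics.coverEntropy (ψ 1) Set.univ = ⊤ :=
  ⟨Pool.Agent.Q207.Cube.X, inferInstance, inferInstance, inferInstance,
    Pool.Agent.Q207.Cube.flow, Pool.Agent.Q207.Cube.w0, Pool.Agent.Q207.Cube.w1,
    Pool.Agent.Q207.Cube.no_fixed, Pool.Agent.Q207.Cube.w_ne,
    fun _ _ _ _ _ hπ hne => Pool.Agent.Q207.Cube.main hπ hne⟩

end Pool.Agent.Results.MP_54b048_an.InfiniteEntropyFactors
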